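import Mathlib
import Pool.Agent.H706Z.PlD

set_option autoImplicit false

open Set

namespace Pool.Agent.Results.MP_1e7707_gt.NoPartition

/-- The plane has no partition into fewer than continuum many continua. -/
theorem result : ¬ ∃ G : Set (Set (EuclideanSpace ℝ (Fin 2))),
    (∀ K ∈ G, IsCompact K ∧ IsConnected K) ∧ G.PairwiseDisjoint id ∧ ⋃₀ G = univ ∧
      Cardinal.mk G < Cardinal.continuum := by
  rintro ⟨G, hG, hd, hcov, hcard⟩
  let e : ℂ ≃ₜ EuclideanSpace ℝ (Fin 2) := Complex.orthonormalBasisOneI.repr.toHomeomorph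
  have h1 : ∀ x : ℂ, ∃ K ∈ G, e x ∈ K := fun x => by
    have : e x ∈ ⋃₀ G := by rw [hcov]; exact mem_univ _
    exact this
  choose κ hκG hκ using h1
  refine Pool.Agent.H706Z.Pl.main (k := fun x => e ⁻¹' κ x) ⟨hκ, fun x y hy => ?_, fun x => ?_⟩
    (fun x => e.isCompact_preimage.2 (hG _ (hκG x)).1)
    (fun x => e.isPreconnected_preimage.2 (hG _ (hκG x)).2.isPreconnected) ?_
  · have : κ y = κ x := hd.elim_set (hκG y) (hκG x) (e y) (hκ y) hy
    rw [this]
  · exact (hG _ (hκG x)).1.isClosed.preimage e.continuous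
  · refine lt_of_le_of_lt ?_ hcard
    refine le_trans (Cardinal.mk_le_mk_of_subset (t := (fun K => e ⁻¹' K) '' G) ?_)
      Cardinal.mk_image_le
    rintro _ ⟨x, rfl⟩
    exact ⟨κ x, hκG x, rfl⟩

end Pool.Agent.Results.MP_1e7707_gt.NoPartition
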